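import Pool.Agent.H11.NZ.Targets

/-!
# Module FPA of the board nz_modules
-/

set_option autoImplicit false

open Equiv (Perm)
open Pool.Agent.H11.NZ

namespace Pool.Agent.H50.NZ.FPA

/-- greedy choice of points moved by a permutation -/
theorem greedy {I : Type} [Fintype I] [DecidableEq I] (σ : Perm I) (s : ℕ)
    (hs : 3 * s ≤ σ.support.card) :
    ∃ J : Finset I, J.card = s ∧ J ⊆ σ.support ∧ ∀ j ∈ J, ∀ j' ∈ J, σ j ≠ j' := by
  induction s with
  | zero => exact ⟨∅, by simp⟩
  | succ s ih =>
    obtain ⟨J, hJc, hJs, hJ⟩ := ih (by omega)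
    have hcard : (J ∪ J.image σ ∪ J.image σ.symm).card < σ.support.card := by
      have h1 := Finset.card_union_le (J ∪ J.image σ) (J.image σ.symm)
      have h2 := Finset.card_union_le J (J.image σ)
      have h3 : (J.image σ).card ≤ J.card := Finset.card_image_le
      have h4 : (J.image σ.symm).card ≤ J.card := Finset.card_image_le
      omega
    obtain ⟨j, hj1, hj2⟩ := Finset.exists_mem_notMem_of_card_lt_card hcard
    simp only [Finset.mem_union, Finset.mem_image, not_or, not_exists, not_and] at hj2
    obtain ⟨⟨h1, h2⟩, h3⟩ := hj2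
    refine ⟨insert j J, ?_, ?_, ?_⟩
    · rw [Finset.card_insert_of_notMem h1, hJc]
    · intro x hx
      rcases Finset.mem_insert.1 hx with rfl | hx
      · exact hj1
      · exact hJs hx
    · intro x hx y hy
      rcases Finset.mem_insert.1 hx with hx | hx
      · rcases Finset.mem_insert.1 hy with hy | hy
        · rw [hx, hy]
          exact Equiv.Perm.mem_support.1 hj1
        · intro h
          exact h3 y hy (by rw [← h, hx]; exact σ.symm_apply_apply j)
      · rcases Finset.mem_insert.1 hy with hy | hy
        · rw [hy]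
          exact h2 x hx
        · exact hJ x hx y hy

theorem pf_fpa : T_FPA := by
  intro s
  refine ⟨3 * s, ?_⟩
  intro I _ _ T _ _ R σ τ hO hR hs
  classical
  choose u hu using hR
  obtain ⟨J, hJc, -, hJ⟩ := greedy σ s hs
  -- the sets of the induction
  let Sat : (∀ i, T i) → I → Prop := fun x j => ∃ r ∈ R, r (σ j) = (x⁻¹ * τ x) (σ j)
  have hmain : ∀ K : Finset I, (∀ j ∈ K, ∀ j' ∈ K, σ j ≠ j') →
      2 ^ K.card * Nat.card {x : ∀ i, T i // ∀ j ∈ K, Sat x j} ≤ Nat.card (∀ i, T i) := by
    intro K
    induction K using Finset.induction_on with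
    | empty =>
      intro _
      simp only [Finset.card_empty, pow_zero, one_mul]
      exact Nat.card_le_card_of_injective (fun x : {x : ∀ i, T i // ∀ j ∈ (∅ : Finset I), Sat x j}
        => (x : ∀ i, T i)) Subtype.val_injective
    | insert j K hjK ih =>
      intro hK
      have hK' : ∀ j ∈ K, ∀ j' ∈ K, σ j ≠ j' := fun a ha b hb =>
        hK a (Finset.mem_insert_of_mem ha) b (Finset.mem_insert_of_mem hb)
      have hih := ih hK'
      have hjj : σ j ≠ j := hK j (Finset.mem_insert_self _ _) j (Finset.mem_insert_self _ _)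
      have hstep : 2 * Nat.card {x : ∀ i, T i // ∀ l ∈ insert j K, Sat x l} ≤
          Nat.card {x : ∀ i, T i // ∀ l ∈ K, Sat x l} := by
        let w : ∀ i, T i := Pi.mulSingle (σ j) (u (σ j))⁻¹
        have hw : ∀ l, l ≠ σ j → w l = 1 := fun l hl => Pi.mulSingle_eq_of_ne hl _
        have hwj : w (σ j) = (u (σ j))⁻¹ := Pi.mulSingle_eq_same _ _
        -- the condition at `l` does not see the change
        have hinv : ∀ x : ∀ i, T i, ∀ l ∈ K, Sat x l → Sat (x * w) l := by
          intro x l hl hx
          obtain ⟨r, hr, hrx⟩ := hx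
          refine ⟨r, hr, ?_⟩
          have hlj : l ≠ σ j := fun h => hK j (Finset.mem_insert_self _ _) l
            (Finset.mem_insert_of_mem hl) h.symm
          have hσl : σ l ≠ σ j := fun h => hjK (by rw [← σ.injective h]; exact hl)
          have h1 : τ (x * w) (σ l) = τ x (σ l) := by
            apply hO
            simp [hw l hlj]
          rw [hrx]
          simp only [Pi.mul_apply, Pi.inv_apply, mul_inv_rev, h1, hw _ hσl, inv_one, one_mul]
        have hno : ∀ x : ∀ i, T i, Sat x j → ¬ Sat (x * w) j := by
          intro x hx hx'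
          obtain ⟨r, hr, hrx⟩ := hx
          obtain ⟨r', hr', hrx'⟩ := hx'
          have h1 : τ (x * w) (σ j) = τ x (σ j) := by
            apply hO
            simp [hw j hjj.symm]
          apply hu (σ j) (r' * r⁻¹) (R.mul_mem hr' (R.inv_mem hr))
          simp only [Pi.mul_apply, Pi.inv_apply] at hrx hrx' ⊢
          rw [hrx, hrx', h1, hwj]
          group
        have hfin : Finite {x : ∀ i, T i // ∀ l ∈ K, Sat x l} := inferInstance
        let F : {x : ∀ i, T i // ∀ l ∈ insert j K, Sat x l} ⊕
            {x : ∀ i, T i // ∀ l ∈ insert j K, Sat x l} → {x : ∀ i, T i // ∀ l ∈ K, Sat x l} :=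
          Sum.elim (fun x => ⟨x.1, fun l hl => x.2 l (Finset.mem_insert_of_mem hl)⟩)
            (fun x => ⟨x.1 * w, fun l hl => hinv x.1 l hl (x.2 l (Finset.mem_insert_of_mem hl))⟩)
        have hF : Function.Injective F := by
          rintro (x | x) (y | y) hxy
          · have := congrArg Subtype.val hxy
            exact congrArg Sum.inl (Subtype.ext this)
          · exfalso
            have h2 : x.1 = y.1 * w := congrArg Subtype.val hxy
            have h3 := hno y.1 (y.2 j (Finset.mem_insert_self _ _))
            rw [← h2] at h3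
            exact h3 (x.2 j (Finset.mem_insert_self _ _))
          · exfalso
            have h2 : x.1 * w = y.1 := congrArg Subtype.val hxy
            have h3 := hno x.1 (x.2 j (Finset.mem_insert_self _ _))
            rw [h2] at h3
            exact h3 (y.2 j (Finset.mem_insert_self _ _))
          · have h2 : x.1 * w = y.1 * w := congrArg Subtype.val hxy
            exact congrArg Sum.inr (Subtype.ext (mul_right_cancel h2))
        have h5 := Nat.card_le_card_of_injective F hF
        rw [Nat.card_sum] at h5
        omega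
      rw [Finset.card_insert_of_notMem hjK, pow_succ]
      calc 2 ^ K.card * 2 * Nat.card {x : ∀ i, T i // ∀ l ∈ insert j K, Sat x l}
          = 2 ^ K.card * (2 * Nat.card {x : ∀ i, T i // ∀ l ∈ insert j K, Sat x l}) := by ring
        _ ≤ 2 ^ K.card * Nat.card {x : ∀ i, T i // ∀ l ∈ K, Sat x l} :=
          Nat.mul_le_mul_left _ hstep
        _ ≤ _ := hih
  have h1 := hmain J hJ
  have h2 : Nat.card {x : ∀ i, T i // x⁻¹ * τ x ∈ R} ≤
      Nat.card {x : ∀ i, T i // ∀ j ∈ J, Sat x j} := by
    refine Nat.card_le_card_of_injective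
      (fun x => ⟨x.1, fun j _ => ⟨x.1⁻¹ * τ x.1, x.2, rfl⟩⟩) ?_
    intro x y hxy
    exact Subtype.ext (Subtype.mk.inj hxy)
  calc s * Nat.card {x : ∀ i, T i // x⁻¹ * τ x ∈ R}
      ≤ 2 ^ J.card * Nat.card {x : ∀ i, T i // ∀ j ∈ J, Sat x j} := by
        refine Nat.mul_le_mul ?_ h2
        rw [hJc]
        exact Nat.lt_two_pow_self.le
    _ ≤ _ := h1

end Pool.Agent.H50.NZ.FPA
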